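import Pool.Agent.H.MP_6c6968_al.C

set_option autoImplicit false

namespace Pool.Agent.Results.MP_6c6968_al.Unbounded

/-- The ring `Z[p/q, q/p]` inside the rationals. -/
def A (p q : ℕ) : Subring ℚ := Subring.closure {(p : ℚ) / q, ((p : ℚ) / q)⁻¹}

/-- Cayley graph of `G_{p,q}` for `S_1`: `(x,k) a = (x + (p/q)^k, k)`, `(x,k) t = (x, k+1)`. -/
def cayley (p q : ℕ) : SimpleGraph (A p q × ℤ) :=
  SimpleGraph.fromRel (fun u v =>
    ((v.1 : ℚ) = u.1 + ((p : ℚ) / q) ^ u.2 ∧ v.2 = u.2) ∨ ((v.1 : ℚ) = u.1 ∧ v.2 = u.2 + 1))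

theorem result (p q : ℕ) (hp : 1 ≤ p) (hq : 1 ≤ q) (hc : Nat.Coprime p q) (hne : p ≠ q) (D : ℕ) :
    (cayley p q).Connected ∧
    ∃ g : A p q × ℤ, {v | ∃ W : (cayley p q).Walk g v, ∀ u ∈ W.support,
      (cayley p q).dist (0, 0) g ≤ (cayley p q).dist (0, 0) u + D}.Finite :=
  Pool.Agent.H.MP_6c6968_al.final p q hp hq hc hne
    (Units.mk0 ((p : ℚ) / q) (by positivity)) rfl D

end Pool.Agent.Results.MP_6c6968_al.Unbounded
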